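import Pool.Agent.Helper64.FL.StC

/-! CDX: the condition at a clique from a layout. -/

set_option autoImplicit false

namespace Pool.Agent.Helper64.FL

open Pool.Agent.Helper64.CT Pool.Agent.Helper64.DT
open Pool.Agent.Helper64.HG (Ovl Model Circ IC HellyCircle ChordModel)

theorem cdx_clu_symm {V : Type} {G : SimpleGraph V} {y u v : V} (h : Clu G y u v) :
    Clu G y v u := by
  unfold Clu at h
  induction h with
  | refl => exact Relation.ReflTransGen.refl
  | tail _ h2 ih =>
    refine Relation.ReflTransGen.trans (Relation.ReflTransGen.single ?_) ih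
    exact h2.elim (fun h => Or.inl h.symm) (fun h => Or.inr h.symm)

theorem cdx_bool {a b c d : Bool} (h : a = b ↔ c = d) : xor c a = xor d b := by
  cases a <;> cases b <;> cases c <;> cases d <;> simp_all

theorem st_CDX (hU : ST_UTQ) (hR : ST_RAY) : ST_CDX := by
  classical
  intro V G Q σ n θ f hE hL hS
  obtain ⟨-, hun, -⟩ := hR V G Q hE.red.df hE.mx
  -- the vertex of `Q` at a ray
  let at1 : V → V := fun u => if h : ∃ x, RayQ G Q x u then h.choose else u
  have at1_eq : ∀ x u, RayQ G Q x u → at1 u = x := by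
    intro x u h
    have h' : ∃ x, RayQ G Q x u := ⟨x, h⟩
    have h1 : at1 u = h'.choose := dif_pos h'
    rw [h1]
    exact hun _ _ _ h'.choose_spec h
  -- the colourings
  choose c hc0 using hE.cii
  have hc : ∀ y, PropC G y (c y) := hc0
  -- the chosen ray
  let W : V → V → V × V → Prop := fun y v p => RayQ G Q p.1 p.2 ∧ y ≠ p.1 ∧ Clu G y v p.2
  let K : V → V → Bool := fun y v => if h : ∃ p, W y v p then
    xor (c y h.choose.2) (phi σ θ f y h.choose.1 h.choose.2) else false
  have K_eq : ∀ y ∈ Q, ∀ v p, W y v p → K y v = xor (c y p.2) (phi σ θ f y p.1 p.2) := by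
    intro y hy v p hp
    have h' : ∃ p, W y v p := ⟨p, hp⟩
    have h1 : K y v = xor (c y h'.choose.2) (phi σ θ f y h'.choose.1 h'.choose.2) := dif_pos h'
    rw [h1]
    obtain ⟨r1, n1, k1⟩ := h'.choose_spec
    obtain ⟨r2, n2, k2⟩ := hp
    exact cdx_bool (hU V G Q σ n θ f hE hL hS y _ _ _ _ hy n1 n2 r1 r2
      ((cdx_clu_symm k1).trans k2) (c y) (hc y))
  have K_clu : ∀ y ∈ Q, ∀ v w, Clu G y v w → K y v = K y w := by
    intro y hy v w h
    by_cases h' : ∃ p, W y v p
    · obtain ⟨p, hp⟩ := h'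
      have hp' : W y w p := ⟨hp.1, hp.2.1, (cdx_clu_symm h).trans hp.2.2⟩
      rw [K_eq y hy v p hp, K_eq y hy w p hp']
    · have h'' : ¬ ∃ p, W y w p := by
        rintro ⟨p, hp⟩
        exact h' ⟨p, hp.1, hp.2.1, h.trans hp.2.2⟩
      have h1 : K y v = false := dif_neg h'
      have h2 : K y w = false := dif_neg h''
      rw [h1, h2]
  refine ⟨θ, fun u => xor (σ u) (f (at1 u)), fun y v => xor (c y v) (K y v), hL.inj, ?_⟩
  intro y hy
  refine ⟨⟨?_, ?_⟩, ?_⟩
  · intro v w h
    show xor (c y v) (K y v) = xor (c y w) (K y w)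
    rw [(hc y).1 v w h, K_clu y hy v w (Relation.ReflTransGen.single (Or.inl h))]
  · intro v w h e
    have e' : xor (c y v) (K y v) = xor (c y w) (K y w) := e
    rw [K_clu y hy v w (Relation.ReflTransGen.single (Or.inr h))] at e'
    apply (hc y).2 v w h
    cases h1 : c y v <;> cases h2 : c y w <;> cases h3 : K y w <;> simp_all
  · intro x hx hxy u hxu huQ
    have hr : RayQ G Q x u := ⟨hx, hxu, huQ⟩
    have hw : W y u (x, u) := ⟨hr, hxy.symm, Relation.ReflTransGen.refl⟩
    show xor (c y u) (K y u) = xor (xor (σ u) (f (at1 u))) (decide (θ x < θ y))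
    rw [K_eq y hy u (x, u) hw, at1_eq x u hr]
    show xor (c y u) (xor (c y u) (phi σ θ f y x u)) = phi σ θ f y x u
    cases c y u <;> cases phi σ θ f y x u <;> rfl

end Pool.Agent.Helper64.FL
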