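import Pool.Agent.Helper64.FL.StH

set_option autoImplicit false

namespace Pool.Agent.Helper64.FL

open Pool.Agent.Helper64.CT Pool.Agent.Helper64.DT
open Pool.Agent.Helper64.HG (Ovl Model Circ IC HellyCircle ChordModel)

variable {V : Type}

theorem nke_hd_tail (G : SimpleGraph V) : ∀ (B : List V), IPt G B → ∀ u ∈ B.tail,
    B.head? ≠ some u := by
  intro B hB u hu h
  cases B with
  | nil => simp at hu
  | cons b B =>
    simp only [List.head?_cons, Option.some.injEq] at h
    subst h
    exact hB.1 b (by simpa using hu) rfl

theorem nke_join (G : SimpleGraph V) (m : V) (B : List V) (hB : IPt G B)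
    (hmB : ∀ u ∈ B, u ≠ m ∧ (G.Adj m u ↔ B.head? = some u)) :
    ∀ (A : List V), IPt G A → (∀ u ∈ A, u ≠ m ∧ (G.Adj m u ↔ A.getLast? = some u)) →
    (∀ u ∈ A, ∀ w ∈ B, u ≠ w ∧ ¬ G.Adj u w) → IPt G (A ++ m :: B) := by
  intro A
  induction A with
  | nil =>
    intro _ _ _
    simp only [List.nil_append]
    refine ⟨fun z hz h => (hmB z hz).1 h.symm, ?_, ?_, hB⟩
    · intro b hb
      have hb' : B.head? = some b := hb
      exact (hmB b (List.mem_of_mem_head? hb)).2.mpr hb'
    · intro z hz ha
      exact nke_hd_tail G B hB z hz ((hmB z (List.mem_of_mem_tail hz)).2.mp ha)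
  | cons a A ih =>
    intro hA hm hs
    obtain ⟨h1, h2, h3, h4⟩ := hA
    have hIH : IPt G (A ++ m :: B) := by
      apply ih h4
      · intro u hu
        refine ⟨(hm u (by simp [hu])).1, ?_⟩
        rw [(hm u (by simp [hu])).2]
        cases A with
        | nil => simp at hu
        | cons a' A' => simp
      · intro u hu w hw
        exact hs u (by simp [hu]) w hw
    show (∀ x ∈ A ++ m :: B, a ≠ x) ∧ (∀ b ∈ (A ++ m :: B).head?, G.Adj a b) ∧
      (∀ x ∈ (A ++ m :: B).tail, ¬ G.Adj a x) ∧ IPt G (A ++ m :: B)
    refine ⟨?_, ?_, ?_, hIH⟩
    · intro z hz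
      rcases List.mem_append.mp hz with hz | hz
      · exact h1 z hz
      · rcases List.mem_cons.mp hz with rfl | hz
        · exact (hm a (by simp)).1
        · exact (hs a (by simp) z hz).1
    · intro b hb
      cases A with
      | nil =>
        simp only [List.nil_append, List.head?_cons, Option.mem_def, Option.some.injEq] at hb
        subst hb
        exact ((hm a (by simp)).2.mpr (by simp)).symm
      | cons a' A' =>
        exact h2 b (by simpa using hb)
    · intro z hz ha
      cases A with
      | nil =>
        simp only [List.nil_append, List.tail_cons] at hz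
        exact (hs a (by simp) z hz).2 ha
      | cons a' A' =>
        simp only [List.cons_append, List.tail_cons, List.mem_append, List.mem_cons] at hz
        rcases hz with hz | hz | hz
        · exact h3 z (by simpa using hz) ha
        · subst hz
          have h5 := (hm a (by simp)).2.mp ha.symm
          rw [List.getLast?_cons_cons] at h5
          exact h1 a (List.mem_of_getLast? h5) rfl
        · exact (hs a (by simp) z hz).2 ha

/-- links between adjacent attachments have at least two vertices -/
theorem nke_len (G : SimpleGraph V) (hd : DF G) (x : V) (n : ℕ → V) (P : ℕ → List V)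
    (a b : ℕ) (h : Arc G x n P a b) (i : ℕ) (h1 : a ≤ i) (h2 : i < b)
    (ha : G.Adj (n i) (n (i + 1))) : 2 ≤ (P i).length := by
  have hne := h.ne i h1 h2
  have hf := h.fst i h1 h2
  have hl := h.lst i h1 h2
  have hfar := h.far i h1 h2
  cases hP : P i with
  | nil => exact absurd hP hne
  | cons u L =>
    cases L with
    | cons w L => simp
    | nil =>
      exfalso
      rw [hP] at hf hl hfar
      have e1 : G.Adj (n i) u := (hf u (by simp)).mpr (by simp)
      have e2 : G.Adj (n (i + 1)) u := (hl u (by simp)).mpr (by simp)
      have e3 := h.xn i h1 (by omega)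
      have e4 := h.xn (i + 1) (by omega) (by omega)
      have e5 := hfar u (by simp)
      exact e5.2 (hd (n i) (n (i + 1)) x u ha e3.symm e4.symm e1 e2 (fun h => e5.1 h.symm))

theorem nke_shift (G : SimpleGraph V) (x : V) (k : ℕ) (n : ℕ → V) (P : ℕ → List V)
    (h : Neck G x k n P) (i : ℕ) : Neck G x k (fun j => n (i + j)) (fun j => P (i + j)) := by
  refine ⟨h.k5, fun j => ?_, fun j => ?_, fun a => ?_⟩
  · show n (i + (j + k)) = n (i + j)
    rw [← add_assoc, h.pn]
  · show P (i + (j + k)) = P (i + j)
    rw [← add_assoc, h.pP]
  · have hk := h.k5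
    have A := h.arc (i + a)
    have hx : i + a + k - 1 = i + (a + k - 1) := by omega
    rw [hx] at A
    refine ⟨by omega, fun j h1 h2 => A.xn _ (by omega) (by omega),
      fun j l h1 h2 h3 => A.inj _ _ (by omega) (by omega) (by omega),
      fun j h1 h2 => A.ne _ (by omega) (by omega), fun j h1 h2 => A.ip _ (by omega) (by omega),
      fun j h1 h2 => A.far _ (by omega) (by omega),
      fun j h1 h2 => A.fst _ (by omega) (by omega),
      fun j h1 h2 => A.lst (i + j) (by omega) (by omega),
      fun j l h1 h2 h3 h4 h5 h6 => A.cln _ _ (by omega) (by omega) (by omega) (by omega)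
        (by omega) (by omega),
      fun j l h1 h2 h3 => A.sep _ _ (by omega) (by omega) (by omega)⟩

theorem nke_base (h1 : ST_RGE) (G : SimpleGraph V) (x : V) (k : ℕ) (n : ℕ → V)
    (P : ℕ → List V) (hR : Red G) (h : Neck G x k n P) (hk : Odd k)
    (hc : ∀ j, 0 < j → j < k → ¬ G.Adj (n 0) (n j) ∧
      ∀ l, 0 < l → l < k → n j = n l ∨ G.Adj (n j) (n l)) : False := by
  have k5 := h.k5
  have A0 : Arc G x n P 0 (k - 1) := by
    have := h.arc 0
    rwa [zero_add] at this
  have A1 : Arc G x n P 1 k := by
    have := h.arc 1
    rwa [show 1 + k - 1 = k by omega] at this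
  have A2 := h.arc (k - 1)
  have ek : n k = n 0 := by
    have := h.pn 0
    rwa [zero_add] at this
  have ek1 : n (k + 1) = n 1 := by
    have := h.pn 1
    rwa [add_comm] at this
  have eP : P k = P 0 := by
    have := h.pP 0
    rwa [zero_add] at this
  -- separation of `P (k-1)` and `P 0`
  have hs0 : ∀ u ∈ P (k - 1), ∀ w ∈ P 0, u ≠ w ∧ ¬ G.Adj u w := by
    have := A2.sep (k - 1) k (by omega) (by omega) (by omega)
    rwa [eP] at this
  have hadj : ∀ i j, i < k - 1 → j < k - 1 → i ≠ j → G.Adj (n (i + 1)) (n (j + 1)) := by
    intro i j hi hj hij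
    rcases (hc (i + 1) (by omega) (by omega)).2 (j + 1) (by omega) (by omega) with he | he
    · exfalso
      rcases Nat.lt_or_gt_of_ne hij with h2 | h2
      · exact A1.inj (i + 1) (j + 1) (by omega) (by omega) (by omega) he
      · exact A1.inj (j + 1) (i + 1) (by omega) (by omega) (by omega) he.symm
    · exact he
  -- facts on `P (k-1)`
  have hlast : ∀ u ∈ P (k - 1), (G.Adj (n 0) u ↔ (P (k - 1)).getLast? = some u) := by
    have := A1.lst (k - 1) (by omega) (by omega)
    rw [show k - 1 + 1 = k by omega, ek] at this
    exact this
  have hx0 : G.Adj x (n 0) := A0.xn 0 (by omega) (by omega)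
  have hfk := A1.far (k - 1) (by omega) (by omega)
  have hf0 := A0.far 0 (by omega) (by omega)
  have hnek := A1.ne (k - 1) (by omega) (by omega)
  have hne0 := A0.ne 0 (by omega) (by omega)
  have hjoin : IPt G (P (k - 1) ++ n 0 :: P 0) := by
    apply nke_join G (n 0) (P 0) (A0.ip 0 (by omega) (by omega))
    · intro u hu
      refine ⟨fun he => ?_, A0.fst 0 (by omega) (by omega) u hu⟩
      subst he
      exact (hf0 _ hu).2 hx0
    · exact A1.ip (k - 1) (by omega) (by omega)
    · intro u hu
      refine ⟨fun he => ?_, hlast u hu⟩
      subst he
      exact (hfk _ hu).2 hx0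
    · exact hs0
  set Q : ℕ → List V := fun j => if j + 2 = k then P (k - 1) ++ n 0 :: P 0 else P (j + 1) with hQ
  have Q1 : Q (k - 2) = P (k - 1) ++ n 0 :: P 0 := by
    simp only [hQ]
    rw [if_pos (by omega)]
  have Q2 : ∀ j, j < k - 1 → j ≠ k - 2 → Q j = P (j + 1) := by
    intro j hj hj2
    simp only [hQ]
    rw [if_neg (by omega)]
  have hring : Ring G (k - 1) (fun j => n (j + 1)) Q := by
    refine ⟨by omega, hadj, ?_, ?_, ?_, ?_, ?_, ?_, ?_⟩
    · -- len
      intro i hi
      by_cases h2 : i = k - 2
      · subst h2
        rw [Q1]
        rcases List.exists_cons_of_ne_nil hnek with ⟨a, L, hL⟩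
        rw [hL]
        simp only [List.cons_append, List.length_cons, List.length_append]
        omega
      · rw [Q2 i hi h2]
        exact nke_len G hR.df x n P 1 k A1 (i + 1) (by omega) (by omega)
          (hadj i (i + 1) (by omega) (by omega) (by omega))
    · -- pth
      intro i hi
      by_cases h2 : i = k - 2
      · subst h2
        rw [Q1]
        exact hjoin
      · rw [Q2 i hi h2]
        exact A1.ip (i + 1) (by omega) (by omega)
    · -- fst
      intro i hi
      by_cases h2 : i = k - 2
      · subst h2
        rw [Q1]
        intro u hu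
        rw [show k - 2 + 1 = k - 1 by omega]
        rcases List.exists_cons_of_ne_nil hnek with ⟨a, L, hL⟩
        have hfst := A1.fst (k - 1) (by omega) (by omega)
        rcases List.mem_append.mp hu with hu | hu
        · rw [hfst u hu, hL]
          simp
        · rcases List.mem_cons.mp hu with rfl | hu
          · constructor
            · intro ha
              exact absurd ha.symm (hc (k - 1) (by omega) (by omega)).1
            · intro ha
              exfalso
              rw [hL] at ha
              simp only [List.cons_append, List.head?_cons, Option.some.injEq] at ha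
              have : n 0 ∈ P (k - 1) := by rw [hL, ← ha]; simp
              exact (hfk _ this).2 hx0
          · constructor
            · intro ha
              exact absurd ha (A0.cln 0 (k - 1) (by omega) (by omega) (by omega) (by omega)
                (by omega) (by omega) u hu)
            · intro ha
              exfalso
              rw [hL] at ha
              simp only [List.cons_append, List.head?_cons, Option.some.injEq] at ha
              exact (hs0 a (by rw [hL]; simp) u hu).1 ha
      · rw [Q2 i hi h2]
        exact A1.fst (i + 1) (by omega) (by omega)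
    · -- lst
      intro i hi
      by_cases h2 : i = k - 2
      · subst h2
        rw [Q1]
        intro u hu
        rw [show k - 2 + 1 = k - 1 by omega, Nat.mod_self, zero_add]
        have hg : (P (k - 1) ++ n 0 :: P 0).getLast? = (P 0).getLast? := by
          rcases List.exists_cons_of_ne_nil hne0 with ⟨a, L, hL⟩
          rw [hL]
          simp [List.getLast?_cons]
        rw [hg]
        have hlst := A0.lst 0 (by omega) (by omega)
        rw [zero_add] at hlst
        rcases List.mem_append.mp hu with hu | hu
        · constructor
          · intro ha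
            exact absurd ha (A1.cln (k - 1) 1 (by omega) (by omega) (by omega) (by omega)
              (by omega) (by omega) u hu)
          · intro ha
            exact absurd rfl (hs0 u hu u (List.mem_of_getLast? ha)).1
        · rcases List.mem_cons.mp hu with rfl | hu
          · constructor
            · intro ha
              exact absurd ha.symm (hc 1 (by omega) (by omega)).1
            · intro ha
              exact absurd hx0 (hf0 _ (List.mem_of_getLast? ha)).2
          · exact hlst u hu
      · rw [Q2 i hi h2, Nat.mod_eq_of_lt (by omega)]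
        exact A1.lst (i + 1) (by omega) (by omega)
    · -- cln
      intro i j hi hj hij hij2
      by_cases h2 : i = k - 2
      · subst h2
        rw [Q1]
        rw [show k - 2 + 1 = k - 1 by omega, Nat.mod_self] at hij2
        intro u hu
        rcases List.mem_append.mp hu with hu | hu
        · exact A1.cln (k - 1) (j + 1) (by omega) (by omega) (by omega) (by omega)
            (by omega) (by omega) u hu
        · rcases List.mem_cons.mp hu with rfl | hu
          · exact fun ha => (hc (j + 1) (by omega) (by omega)).1 ha.symm
          · exact A0.cln 0 (j + 1) (by omega) (by omega) (by omega) (by omega)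
              (by omega) (by omega) u hu
      · rw [Q2 i hi h2]
        rw [Nat.mod_eq_of_lt (by omega)] at hij2
        exact A1.cln (i + 1) (j + 1) (by omega) (by omega) (by omega) (by omega)
            (by omega) (by omega)
    · -- dis
      intro i j hi hj u hu he
      have hxj := A1.xn (j + 1) (by omega) (by omega)
      by_cases h2 : i = k - 2
      · subst h2
        rw [Q1] at hu
        rcases List.mem_append.mp hu with hu | hu
        · subst he
          exact (hfk _ hu).2 hxj
        · rcases List.mem_cons.mp hu with hu | hu
          · exact A0.inj 0 (j + 1) (by omega) (by omega) (by omega) (hu.symm.trans he)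
          · subst he
            exact (hf0 _ hu).2 hxj
      · rw [Q2 i hi h2] at hu
        subst he
        exact (A1.far (i + 1) (by omega) (by omega) _ hu).2 hxj
    · -- sep
      have key : ∀ j, j < k - 1 → j ≠ k - 2 → ∀ u ∈ Q (k - 2), ∀ w ∈ Q j,
          u ≠ w ∧ ¬ G.Adj u w := by
        intro j hj hj2 u hu w hw
        rw [Q2 j hj hj2] at hw
        rw [Q1] at hu
        rcases List.mem_append.mp hu with hu | hu
        · have := A1.sep (j + 1) (k - 1) (by omega) (by omega) (by omega) w hw u hu
          exact ⟨this.1.symm, fun ha => this.2 ha.symm⟩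
        · rcases List.mem_cons.mp hu with rfl | hu
          · refine ⟨fun he => ?_, A0.cln (j + 1) 0 (by omega) (by omega) (by omega) (by omega)
              (by omega) (by omega) w hw⟩
            subst he
            exact (A1.far (j + 1) (by omega) (by omega) _ hw).2 hx0
          · exact A0.sep 0 (j + 1) (by omega) (by omega) (by omega) u hu w hw
      intro i j hi hj hij
      by_cases h2 : i = k - 2
      · subst h2
        exact key j hj (Ne.symm hij)
      · by_cases h3 : j = k - 2
        · subst h3
          intro u hu w hw
          have := key i hi h2 w hw u hu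
          exact ⟨this.1.symm, fun ha => this.2 ha.symm⟩
        · rw [Q2 i hi h2, Q2 j hj h3]
          rcases Nat.lt_or_gt_of_ne hij with h4 | h4
          · exact A1.sep (i + 1) (j + 1) (by omega) (by omega) (by omega)
          · intro u hu w hw
            have := A1.sep (j + 1) (i + 1) (by omega) (by omega) (by omega) w hw u hu
            exact ⟨this.1.symm, fun ha => this.2 ha.symm⟩
  refine h1 V G {v | v ≠ x} (k - 1) (fun j => n (j + 1)) Q hring ?_ (by omega) ?_ (hR.naj x)
  · obtain ⟨r, hr⟩ := hk
    exact ⟨r, by omega⟩
  · intro i hi
    refine ⟨(A1.xn (i + 1) (by omega) (by omega)).ne', ?_⟩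
    intro u hu
    show u ≠ x
    by_cases h2 : i = k - 2
    · subst h2
      rw [Q1] at hu
      rcases List.mem_append.mp hu with hu | hu
      · exact (hfk _ hu).1
      · rcases List.mem_cons.mp hu with rfl | hu
        · exact hx0.ne'
        · exact (hf0 _ hu).1
    · rw [Q2 i hi h2] at hu
      exact (A1.far (i + 1) (by omega) (by omega) _ hu).1

theorem st_NKE (h1 : ST_RGE) : ST_NKE := by
  intro V G x k n P hR h hk i hc
  apply nke_base h1 G x k (fun j => n (i + j)) (fun j => P (i + j)) hR (nke_shift G x k n P h i) hk
  intro j h2 h3
  show ¬ G.Adj (n (i + 0)) (n (i + j)) ∧ _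
  rw [add_zero]
  refine ⟨(hc (i + j) (by omega) (by omega)).1, fun l h4 h5 => ?_⟩
  exact (hc (i + j) (by omega) (by omega)).2 (i + l) (by omega) (by omega)

end Pool.Agent.Helper64.FL
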