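import Pool.Agent.Helper64.FL.StC

/-! QPY: the configuration `prePy`. -/

set_option autoImplicit false

namespace Pool.Agent.Helper64.FL

open Pool.Agent.Helper64.CT Pool.Agent.Helper64.DT
open Pool.Agent.Helper64.HG (Ovl Model Circ IC HellyCircle ChordModel)

theorem qpy_pth {V : Type} {G : SimpleGraph V} {a w : V} {l : List V} (h : Pth G a l w)
    (hne : a ≠ w) : IPt G (a :: (l ++ [w])) := by
  rcases h with ⟨h, -⟩ | ⟨-, h⟩
  · exact absurd h hne
  · exact h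

theorem st_QPY (hB : ST_PTB) : ST_QPY := by
  intro V G S hN x y z o la a lb b lc c exy exz eyz hC oa ob oc xa yb zc ay az bx bz cx cy hF
  obtain ⟨hR, hPn, -⟩ := hB V G
  -- edges
  have e40 := xa.symm
  have e51 := yb.symm
  have e62 := zc.symm
  -- nonadjacent pairs
  have far : ∀ {v u : V}, u ∈ Far G v → u ≠ v ∧ ¬ G.Adj u v :=
    fun h => ⟨h.1, fun h' => h.2 h'.symm⟩
  have Fo := hF o (Or.inl rfl)
  have d30 := far Fo.1
  have d31 := far Fo.2.1
  have d32 := far Fo.2.2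
  have d41 := far ay
  have d42 := far az
  have d50 := far bx
  have d52 := far bz
  have d60 := far cx
  have d61 := far cy
  have d45 := hC.ab a (Or.inr ⟨rfl, fun h => oa h.symm⟩) b (Or.inr ⟨rfl, fun h => ob h.symm⟩)
  have d46 := hC.ac a (Or.inr ⟨rfl, fun h => oa h.symm⟩) c (Or.inr ⟨rfl, fun h => oc h.symm⟩)
  have d56 := hC.bc b (Or.inr ⟨rfl, fun h => ob h.symm⟩) c (Or.inr ⟨rfl, fun h => oc h.symm⟩)
  have n43 : a ≠ o := fun h => oa h.symm
  have n53 : b ≠ o := fun h => ob h.symm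
  have n63 : c ≠ o := fun h => oc h.symm
  -- paths
  have pa := qpy_pth (hR _ _ _ hC.pa) n43
  have pb := qpy_pth (hR _ _ _ hC.pb) n53
  have pc := qpy_pth (hR _ _ _ hC.pc) n63
  obtain ⟨oLa, aLa, -⟩ := hPn _ _ _ hC.pa
  obtain ⟨oLb, bLb, -⟩ := hPn _ _ _ hC.pb
  obtain ⟨oLc, cLc, -⟩ := hPn _ _ _ hC.pc
  have Fa := fun u (hu : u ∈ la) => hF u (Or.inr (Or.inl hu))
  have Fb := fun u (hu : u ∈ lb) => hF u (Or.inr (Or.inr (Or.inl hu)))
  have Fc := fun u (hu : u ∈ lc) => hF u (Or.inr (Or.inr (Or.inr hu)))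
  have a0 : x ∉ la.reverse := fun h => (Fa x (List.mem_reverse.1 h)).1.1 rfl
  have a1 : y ∉ la.reverse := fun h => (Fa y (List.mem_reverse.1 h)).2.1.1 rfl
  have a2 : z ∉ la.reverse := fun h => (Fa z (List.mem_reverse.1 h)).2.2.1 rfl
  have a3 : o ∉ la.reverse := fun h => oLa (List.mem_reverse.1 h)
  have a4 : a ∉ la.reverse := fun h => aLa (List.mem_reverse.1 h)
  have a5 : b ∉ la.reverse := fun h =>
    (hC.ab b (Or.inl (List.mem_reverse.1 h)) b (Or.inr ⟨rfl, n53⟩)).1 rfl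
  have a6 : c ∉ la.reverse := fun h =>
    (hC.ac c (Or.inl (List.mem_reverse.1 h)) c (Or.inr ⟨rfl, n63⟩)).1 rfl
  have b0 : x ∉ lb.reverse := fun h => (Fb x (List.mem_reverse.1 h)).1.1 rfl
  have b1 : y ∉ lb.reverse := fun h => (Fb y (List.mem_reverse.1 h)).2.1.1 rfl
  have b2 : z ∉ lb.reverse := fun h => (Fb z (List.mem_reverse.1 h)).2.2.1 rfl
  have b3 : o ∉ lb.reverse := fun h => oLb (List.mem_reverse.1 h)
  have b5 : b ∉ lb.reverse := fun h => bLb (List.mem_reverse.1 h)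
  have b4 : a ∉ lb.reverse := fun h =>
    (hC.ab a (Or.inr ⟨rfl, n43⟩) a (Or.inl (List.mem_reverse.1 h))).1 rfl
  have b6 : c ∉ lb.reverse := fun h =>
    (hC.bc c (Or.inl (List.mem_reverse.1 h)) c (Or.inr ⟨rfl, n63⟩)).1 rfl
  have c0 : x ∉ lc.reverse := fun h => (Fc x (List.mem_reverse.1 h)).1.1 rfl
  have c1 : y ∉ lc.reverse := fun h => (Fc y (List.mem_reverse.1 h)).2.1.1 rfl
  have c2 : z ∉ lc.reverse := fun h => (Fc z (List.mem_reverse.1 h)).2.2.1 rfl
  have c3 : o ∉ lc.reverse := fun h => oLc (List.mem_reverse.1 h)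
  have c6 : c ∉ lc.reverse := fun h => cLc (List.mem_reverse.1 h)
  have c4 : a ∉ lc.reverse := fun h =>
    (hC.ac a (Or.inr ⟨rfl, n43⟩) a (Or.inl (List.mem_reverse.1 h))).1 rfl
  have c5 : b ∉ lc.reverse := fun h =>
    (hC.bc b (Or.inr ⟨rfl, n53⟩) b (Or.inl (List.mem_reverse.1 h))).1 rfl
  -- clean paths
  have ka0 : ∀ u ∈ la.reverse, ¬ G.Adj x u := fun u h => (Fa u (List.mem_reverse.1 h)).1.2
  have ka1 : ∀ u ∈ la.reverse, ¬ G.Adj y u := fun u h => (Fa u (List.mem_reverse.1 h)).2.1.2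
  have ka2 : ∀ u ∈ la.reverse, ¬ G.Adj z u := fun u h => (Fa u (List.mem_reverse.1 h)).2.2.2
  have ka5 : ∀ u ∈ la.reverse, ¬ G.Adj b u := fun u h h' =>
    (hC.ab u (Or.inl (List.mem_reverse.1 h)) b (Or.inr ⟨rfl, n53⟩)).2 h'.symm
  have ka6 : ∀ u ∈ la.reverse, ¬ G.Adj c u := fun u h h' =>
    (hC.ac u (Or.inl (List.mem_reverse.1 h)) c (Or.inr ⟨rfl, n63⟩)).2 h'.symm
  have kb0 : ∀ u ∈ lb.reverse, ¬ G.Adj x u := fun u h => (Fb u (List.mem_reverse.1 h)).1.2
  have kb1 : ∀ u ∈ lb.reverse, ¬ G.Adj y u := fun u h => (Fb u (List.mem_reverse.1 h)).2.1.2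
  have kb2 : ∀ u ∈ lb.reverse, ¬ G.Adj z u := fun u h => (Fb u (List.mem_reverse.1 h)).2.2.2
  have kb4 : ∀ u ∈ lb.reverse, ¬ G.Adj a u := fun u h =>
    (hC.ab a (Or.inr ⟨rfl, n43⟩) u (Or.inl (List.mem_reverse.1 h))).2
  have kb6 : ∀ u ∈ lb.reverse, ¬ G.Adj c u := fun u h h' =>
    (hC.bc u (Or.inl (List.mem_reverse.1 h)) c (Or.inr ⟨rfl, n63⟩)).2 h'.symm
  have kc0 : ∀ u ∈ lc.reverse, ¬ G.Adj x u := fun u h => (Fc u (List.mem_reverse.1 h)).1.2
  have kc1 : ∀ u ∈ lc.reverse, ¬ G.Adj y u := fun u h => (Fc u (List.mem_reverse.1 h)).2.1.2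
  have kc2 : ∀ u ∈ lc.reverse, ¬ G.Adj z u := fun u h => (Fc u (List.mem_reverse.1 h)).2.2.2
  have kc4 : ∀ u ∈ lc.reverse, ¬ G.Adj a u := fun u h =>
    (hC.ac a (Or.inr ⟨rfl, n43⟩) u (Or.inl (List.mem_reverse.1 h))).2
  have kc5 : ∀ u ∈ lc.reverse, ¬ G.Adj b u := fun u h =>
    (hC.bc b (Or.inr ⟨rfl, n53⟩) u (Or.inl (List.mem_reverse.1 h))).2
  have sp : ([la.reverse, lb.reverse, lc.reverse] : List (List V)).Pairwise
      (fun A B => ∀ x ∈ A, ∀ y ∈ B, x ≠ y ∧ ¬ G.Adj x y) := by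
    simp only [List.pairwise_cons, List.mem_cons, List.not_mem_nil, or_false, forall_eq_or_imp,
      forall_eq, List.Pairwise.nil, and_true, false_imp_iff, implies_true]
    refine ⟨⟨?_, ?_⟩, ?_⟩
    · intro u hu v hv
      exact hC.ab u (Or.inl (List.mem_reverse.1 hu)) v (Or.inl (List.mem_reverse.1 hv))
    · intro u hu v hv
      exact hC.ac u (Or.inl (List.mem_reverse.1 hu)) v (Or.inl (List.mem_reverse.1 hv))
    · intro u hu v hv
      exact hC.bc u (Or.inl (List.mem_reverse.1 hu)) v (Or.inl (List.mem_reverse.1 hv))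
  refine hN prePy (by simp [preCs]) (fun i => ([x, y, z, o, a, b, c] : List V).getD i x)
    [la.reverse, lb.reverse, lc.reverse] ⟨?_, ?_, ?_, ?_, ?_, rfl, ?_, ?_, ?_, ?_, sp⟩
  · intro y hy; fin_cases hy <;> assumption
  · intro y hy; fin_cases hy <;> assumption
  · intro y hy; fin_cases hy <;> assumption
  · intro y hy; exact absurd hy (by simp [prePy])
  · intro y hy; exact absurd hy (by simp [prePy])
  · intro y hy
    fin_cases hy
    · exact fun h => absurd h n43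
    · exact fun h => absurd h n53
    · exact fun h => absurd h n63
  · intro y hy
    fin_cases hy
    · exact fun _ => pa
    · exact fun _ => pb
    · exact fun _ => pc
  · intro y hy i hi
    have hi' : i < 7 := hi
    fin_cases hy <;> interval_cases i <;> assumption
  · intro y hy i hi hU h1 h2
    have hi' : i < 7 := hi
    fin_cases hy <;> interval_cases i <;>
      first
      | assumption
      | exact absurd rfl h1
      | exact absurd rfl h2

end Pool.Agent.Helper64.FL
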