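import Pool.Agent.Helper64.FL.StH

set_option autoImplicit false

namespace Pool.Agent.Helper64.FL

open Pool.Agent.Helper64.CT Pool.Agent.Helper64.DT
open Pool.Agent.Helper64.HG (Ovl Model Circ IC HellyCircle ChordModel)

variable {V : Type}

theorem di1_hd_tail (G : SimpleGraph V) : ∀ (B : List V), IPt G B → ∀ u ∈ B.tail,
    B.head? ≠ some u := by
  intro B hB u hu h
  cases B with
  | nil => simp at hu
  | cons b B =>
    simp only [List.head?_cons, Option.some.injEq] at h
    subst h
    exact hB.1 b (by simpa using hu) rfl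

theorem di1_last (G : SimpleGraph V) : ∀ (A : List V), IPt G A → ∀ u ∈ A.dropLast,
    A.getLast? ≠ some u := by
  intro A
  induction A with
  | nil => intro _ u hu; simp at hu
  | cons a A ih =>
    intro hA u hu h
    cases A with
    | nil => simp at hu
    | cons b B =>
      rw [List.getLast?_cons_cons] at h
      rw [List.dropLast_cons_cons] at hu
      rcases List.mem_cons.mp hu with hu | hu
      · subst hu
        exact hA.1 u (List.mem_of_getLast? h) rfl
      · exact ih hA.2.2.2 u hu h

theorem di1_split (G : SimpleGraph V) (f : V) (B : List V) : ∀ (A : List V),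
    IPt G (A ++ f :: B) → IPt G A ∧ IPt G B ∧
    (∀ u ∈ A, u ≠ f ∧ (G.Adj f u ↔ A.getLast? = some u)) ∧
    (∀ u ∈ B, u ≠ f ∧ (G.Adj f u ↔ B.head? = some u)) ∧
    ∀ u ∈ A, ∀ w ∈ B, u ≠ w ∧ ¬ G.Adj u w := by
  intro A
  induction A with
  | nil =>
    intro h
    obtain ⟨h1, h2, h3, h4⟩ := h
    refine ⟨trivial, h4, by simp, ?_, by simp⟩
    intro u hu
    refine ⟨(h1 u hu).symm, ?_, ?_⟩
    · intro ha
      cases B with
      | nil => simp at hu
      | cons b B =>
        rcases List.mem_cons.mp hu with rfl | hu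
        · simp
        · exact absurd ha (h3 u (by simpa using hu))
    · intro ha
      exact h2 u ha
  | cons a A ih =>
    intro h
    obtain ⟨h1, h2, h3, h4⟩ := h
    change ∀ x ∈ A ++ f :: B, a ≠ x at h1
    change ∀ b ∈ (A ++ f :: B).head?, G.Adj a b at h2
    change ∀ x ∈ (A ++ f :: B).tail, ¬ G.Adj a x at h3
    obtain ⟨i1, i2, i3, i4, i5⟩ := ih h4
    have hB : ∀ w ∈ B, a ≠ w ∧ ¬ G.Adj a w := by
      intro w hw
      refine ⟨h1 w (by simp [hw]), h3 w ?_⟩
      cases A with
      | nil => simpa using hw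
      | cons a' A' => simp [hw]
    refine ⟨⟨fun z hz => h1 z (by simp [hz]), ?_, ?_, i1⟩, i2, ?_, i4, ?_⟩
    · intro b hb
      cases A with
      | nil => simp at hb
      | cons a' A' => exact h2 b (by simpa using hb)
    · intro z hz
      cases A with
      | nil => simp at hz
      | cons a' A' =>
        have hz' : z ∈ A' := by simpa using hz
        exact h3 z (by simp [hz'])
    · intro u hu
      cases A with
      | nil =>
        have hu' : u = a := by simpa using hu
        subst hu'
        refine ⟨h1 f (by simp), fun _ => by simp, fun _ => (h2 f (by simp)).symm⟩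
      | cons a' A' =>
        rcases List.mem_cons.mp hu with hu | hu
        · subst hu
          refine ⟨h1 f (by simp), fun ha => absurd ha.symm (h3 f (by simp)), fun ha => ?_⟩
          rw [List.getLast?_cons_cons] at ha
          exact absurd rfl (h1 u (List.mem_append_left _ (List.mem_of_getLast? ha)))
        · refine ⟨(i3 u hu).1, ?_⟩
          rw [List.getLast?_cons_cons]
          exact (i3 u hu).2
    · intro u hu w hw
      rcases List.mem_cons.mp hu with hu | hu
      · subst hu
        exact hB w hw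
      · exact i5 u hu w hw

theorem di1_sep (G : SimpleGraph V) (x y z u w : V) (h : ¬ Comp G x y z) (hu : Comp G x y u)
    (hw : Comp G x z w) : u ≠ w ∧ ¬ G.Adj u w := by
  obtain ⟨hy, hu', r1⟩ := hu
  obtain ⟨hz, hw', r2⟩ := hw
  constructor
  · intro he
    subst he
    exact h ⟨hy, hz, r1.trans r2.symm⟩
  · intro ha
    have e : (G.induce (Far G x)).Adj ⟨u, hu'⟩ ⟨w, hw'⟩ := ha
    exact h ⟨hy, hz, (r1.trans e.reachable).trans r2.symm⟩

theorem st_DI1 (h1 : ST_D0F) (h2 : ST_D1F) (h3 : ST_D1A) (h4 : ST_STB) (h5 : ST_PTB)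
    (h6 : ST_LPN) : ST_DI1 := by
  intro V G x k y u0 l1 f l2 um hR hD hu0 hf hl1 hl2
  have k5 := hD.moc.k5
  obtain ⟨a1, a2, a3, a4, a5, a6⟩ := h2 V G x k y u0 _ um hD
  have hne : u0 ≠ um := by
    rcases hD.p.pth with h | h
    · simp at h
    · exact h.1
  have hpth : IPt G ((u0 :: l1) ++ f :: (l2 ++ [um])) := by
    rcases hD.p.pth with h | h
    · simp at h
    · have := h.2
      simpa using this
  obtain ⟨b1, b2, b3, b4, b5⟩ := di1_split G f (l2 ++ [um]) (u0 :: l1) hpth
  -- the component of `y 0`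
  have hK1 : ∀ u ∈ l2 ++ [um], Comp G x (y 0) u := by
    intro u hu
    rcases List.mem_append.mp hu with hu | hu
    · exact hD.p.LK u (by simp [hu])
    · have : u = um := by simpa using hu
      subst this
      exact hD.p.rK
  have hK2 : ∀ u ∈ u0 :: l1, Comp G x (y 0) u := by
    intro u hu
    rcases List.mem_cons.mp hu with hu | hu
    · subst hu
      exact hD.p.lK
    · exact hD.p.LK u (by simp [hu])
  have hKf : Comp G x (y 0) f := hf.1
  have hfar : ∀ u, Comp G x (y 0) u → u ≠ x ∧ ¬ G.Adj x u := by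
    intro u hu
    exact hu.2.1
  -- the end vertices
  obtain ⟨⟨p, hp1, hp2⟩, -⟩ := hD.mm
  obtain ⟨⟨q, hq1, hq2⟩, -⟩ := hD.m0
  have hpR : p ∉ RR G x k y := fun h => a3 p h hp2
  obtain ⟨c1, c2⟩ := a5 hu0
  have hqR : q ∉ RR G x k y := fun h => c1 q h hq2
  obtain ⟨n, P, hA, hn0, hnk, hmid, hP, hnn, -⟩ := h3 V G x k y u0 _ um hR.df hD p q hp1 hpR hq1 hqR
  -- `f` is complete to everything
  have hfc : ∀ j, 1 ≤ j → j < k → ∀ m ∈ Att G x (y j), G.Adj f m := by
    rcases a1 f (by simp) with h | h
    · exact h.2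
    · exact absurd hf h.1
  have hanti : ∀ u, (u ∈ l1 ∨ u ∈ l2) → ∀ j, 1 ≤ j → j < k → ∀ m ∈ Att G x (y j),
      ¬ G.Adj u m := by
    intro u hu
    rcases a1 u (by rcases hu with hu | hu <;> simp [hu]) with h | h
    · exfalso
      rcases hu with hu | hu
      · exact hl1 u hu h.1
      · exact hl2 u hu h.1
    · exact h.2
  have hatt : ∀ i, i ≤ k - 1 → ∃ j, 1 ≤ j ∧ j < k ∧ n i ∈ Att G x (y j) := by
    intro i hi
    rcases Nat.eq_zero_or_pos i with h0 | h0
    · subst h0
      exact ⟨1, le_refl _, by omega, by rw [hn0]; exact hp1⟩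
    · by_cases h7 : i = k - 1
      · subst h7
        exact ⟨k - 1, by omega, by omega, by rw [hnk]; exact hq1⟩
      · exact ⟨i, by omega, by omega, (hmid i (by omega) (by omega)).1⟩
  have hfn : ∀ i, i ≤ k - 1 → G.Adj f (n i) := by
    intro i hi
    obtain ⟨j, j1, j2, j3⟩ := hatt i hi
    exact hfc j j1 j2 _ j3
  have hfx := hfar f hKf
  have hnon : ∀ i j, i < j → j ≤ k - 1 → ¬ G.Adj (n i) (n j) := by
    intro i j hij hj
    exact (h4 V G hR.df x f (n i) (n j) hfx.1 (hA.inj i j (by omega) hij hj)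
      (hA.xn i (by omega) (by omega)) (hA.xn j (by omega) hj) (hfn i (by omega))
      (hfn j hj)).1 hfx.2
  have hsepP : ∀ i, i < k - 1 → ∀ w ∈ P i, ∀ u, Comp G x (y 0) u → u ≠ w ∧ ¬ G.Adj u w := by
    intro i hi w hw u hu
    exact di1_sep G x (y 0) (y (i + 1)) u w (hD.moc.ncm 0 (i + 1) (by omega) (by omega)) hu
      (hP i (by omega) w hw)
  have humn : ∀ i, i ≤ k - 1 → i ≠ 0 → ¬ G.Adj um (n i) := by
    intro i hi h0
    by_cases h7 : i = k - 1
    · subst h7
      rw [hnk]
      exact a4 hne q hq1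
    · exact a3 _ (hmid i (by omega) (by omega)).2.2
  have hu0n : ∀ i, i ≤ k - 1 → i ≠ k - 1 → ¬ G.Adj u0 (n i) := by
    intro i hi h7
    rcases Nat.eq_zero_or_pos i with h0 | h0
    · subst h0
      rw [hn0]
      exact c2 hne p hp1
    · exact c1 _ (hmid i (by omega) (by omega)).2.2
  have hln : ∀ u, (u ∈ l1 ∨ u ∈ l2) → ∀ i, i ≤ k - 1 → ¬ G.Adj u (n i) := by
    intro u hu i hi
    obtain ⟨j, j1, j2, j3⟩ := hatt i hi
    exact hanti u hu j j1 j2 _ j3
  have hxn : ∀ u, Comp G x (y 0) u → ∀ i, i ≤ k - 1 → u ≠ n i := by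
    intro u hu i hi he
    have := hA.xn i (by omega) hi
    rw [← he] at this
    exact (hfar u hu).2 this
  have hL : LPc G x x f (l2 ++ [um]) n P 0 (k - 1) (u0 :: l1) false false := by
    refine ⟨by rwa [zero_add], ?_, hfx.1.symm, hfx.2, ?_, ?_, by simp, by simp, b2, b1, ?_, ?_, ?_,
      ?_, ?_, ?_, ?_, ?_, ?_⟩
    · intro i j _ hij hj
      exact hnon i j hij (by omega)
    · intro i _ hi
      exact ⟨hA.xn i (by omega) (by omega), hfn i (by omega)⟩
    · intro i _ hi u hu
      have e1 := hA.far i (by omega) (by omega) u hu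
      have e2 := hsepP i (by omega) u hu f hKf
      exact ⟨e1.1, e2.1.symm, e1.2, e2.2⟩
    · intro u hu
      have hm : u ∈ l2 ++ [um] := List.mem_of_mem_head? hu
      have e1 := hfar u (hK1 u hm)
      have e2 := (b4 u hm).2.mpr hu
      simp [e1.2, e2]
    · intro u hu
      have hm : u ∈ l2 ++ [um] := List.mem_of_mem_tail hu
      exact ⟨(hfar u (hK1 u hm)).2, fun ha => di1_hd_tail G _ b2 u hu ((b4 u hm).2.mp ha)⟩
    · intro u hu
      have hm : u ∈ u0 :: l1 := List.mem_of_getLast? hu
      have e1 := hfar u (hK2 u hm)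
      have e2 := (b3 u hm).2.mpr hu
      simp [e1.2, e2]
    · intro u hu
      have hm : u ∈ u0 :: l1 := List.dropLast_subset _ hu
      exact ⟨(hfar u (hK2 u hm)).2, fun ha => di1_last G _ b1 u hu ((b3 u hm).2.mp ha)⟩
    · intro u hu
      refine ⟨(hfar u (hK1 u hu)).1, (b4 u hu).1, ?_⟩
      rw [hn0, List.getLast?_append]
      simp only [List.getLast?_singleton, Option.some_or, Option.some.injEq]
      constructor
      · intro ha
        rcases List.mem_append.mp hu with hu | hu
        · exact absurd ha (hanti u (Or.inr hu) 1 (le_refl _) (by omega) p hp1)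
        · have : u = um := by simpa using hu
          exact this.symm
      · intro ha
        subst ha
        exact hp2
    · intro u hu
      refine ⟨(hfar u (hK2 u hu)).1, (b3 u hu).1, ?_⟩
      rw [zero_add, hnk, List.head?_cons, Option.some.injEq]
      constructor
      · intro ha
        rcases List.mem_cons.mp hu with hu | hu
        · exact hu.symm
        · exact absurd ha (hanti u (Or.inl hu) (k - 1) (by omega) (by omega) q hq1)
      · intro ha
        subst ha
        exact hq2
    · intro u hu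
      refine ⟨fun i _ hi => ⟨hxn u (hK1 u hu) i (by omega), fun h0 => ?_⟩, fun i _ hi w hw =>
        hsepP i (by omega) w hw u (hK1 u hu)⟩
      rcases List.mem_append.mp hu with hu | hu
      · exact hln u (Or.inr hu) i (by omega)
      · have : u = um := by simpa using hu
        subst this
        exact humn i (by omega) h0
    · intro u hu
      refine ⟨fun i _ hi => ⟨hxn u (hK2 u hu) i (by omega), fun h0 => ?_⟩, fun i _ hi w hw =>
        hsepP i (by omega) w hw u (hK2 u hu)⟩
      rcases List.mem_cons.mp hu with hu | hu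
      · subst hu
        exact hu0n i (by omega) (by omega)
      · exact hln u (Or.inl hu) i (by omega)
    · intro u hu w hw
      have := b5 w hw u hu
      exact ⟨this.1.symm, fun ha => this.2 ha.symm⟩
  have hev : Even (k - 1) := by
    obtain ⟨r, hr⟩ := hD.moc.odd
    exact ⟨r, by omega⟩
  exact ((h6 V G x x f (l2 ++ [um]) n P 0 (k - 1) (u0 :: l1) false false hL
    (Or.inl ⟨rfl, hev, by omega⟩)).2 hR).1

end Pool.Agent.Helper64.FL
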